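import Pool.Agent.Lib.MP_4d8715_gt.KR.Z.Quant

/-! # Mixing and the maximum principle (module Z-FULL) -/

universe u

namespace Pool.Agent.Lib.MP_4d8715_gt.KR

namespace BSet

variable {B : Type u} [CompleteBooleanAlgebra B]

/-- (The hypothesis may be weakened to `a i ⊓ a j ≤ beq (x i) (x j)`, which is what is proved.) -/
theorem exists_mix {ι : Type u} (a : ι → B) (x : ι → BSet B)
    (h : ∀ i j, a i ⊓ a j ≤ beq (x i) (x j)) : ∃ y : BSet B, ∀ i, a i ≤ beq y (x i) := by
  refine ⟨mk (Σ i, (x i).type) (fun p => (x p.1).func p.2) (fun p => a p.1 ⊓ (x p.1).val p.2),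
    fun i => ?_⟩
  rw [beq_def]
  refine le_inf (le_iInf fun p => ?_) (le_iInf fun k => ?_)
  · rw [le_himp_iff]
    obtain ⟨j, k⟩ := p
    change a i ⊓ (a j ⊓ (x j).val k) ≤ bmem ((x j).func k) (x i)
    refine le_trans (le_inf ?_ (inf_le_right.trans inf_le_right)) (basic_beq_le (x j) (x i) k)
    rw [beq_symm]
    exact le_trans (le_inf inf_le_left (inf_le_right.trans inf_le_left)) (h i j)
  · rw [le_himp_iff]
    exact val_le_bmem (mk (Σ i, (x i).type) (fun p => (x p.1).func p.2)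
      (fun p => a p.1 ⊓ (x p.1).val p.2)) ⟨i, k⟩

theorem exists_max (ψ : BSet B → B) (hψ : Ext ψ) : ∃ x, ψ x = ⨆ y, ψ y := by
  classical
  let ι : Type u := {b : B // ∃ x, ψ x = b}
  choose x hx using fun i : ι => i.2
  let r : ι → ι → Prop := WellOrderingRel
  have hwf : WellFounded r := IsWellFounded.wf
  let a : ι → B := fun i => i.1 ⊓ (⨆ j, ⨆ (_ : r j i), j.1)ᶜ
  have ha : ∀ i j, r i j → a i ⊓ a j = ⊥ := by
    intro i j hij
    have h1 : a i ≤ ⨆ k, ⨆ (_ : r k j), k.1 :=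
      inf_le_left.trans (le_iSup_of_le i (le_iSup_of_le hij le_rfl))
    have h2 : a j ≤ (⨆ k, ⨆ (_ : r k j), k.1)ᶜ := inf_le_right
    refine le_bot_iff.mp ((inf_le_inf h1 h2).trans ?_)
    rw [inf_compl_eq_bot]
  obtain ⟨y, hy⟩ := exists_mix a x (fun i j => by
    rcases trichotomous_of r i j with h | h | h
    · rw [ha i j h]; exact bot_le
    · rw [h, beq_refl]; exact le_top
    · rw [inf_comm, ha j i h]; exact bot_le)
  have h1 : ∀ i, a i ≤ ψ y := by
    intro i
    refine le_trans (le_inf ?_ ?_) (hψ (x i) y)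
    · rw [beq_symm]; exact hy i
    · rw [hx i]; exact inf_le_left
  have h2 : ∀ i : ι, i.1 ≤ ψ y := by
    intro i
    induction i using hwf.induction with
    | _ i ih =>
      have h3 : i.1 ≤ a i ⊔ ⨆ j, ⨆ (_ : r j i), j.1 := by
        have : a i ⊔ (⨆ j, ⨆ (_ : r j i), j.1) = i.1 ⊔ ⨆ j, ⨆ (_ : r j i), j.1 := by
          simp only [a]
          rw [sup_inf_right, compl_sup_eq_top, inf_top_eq]
        rw [this]
        exact le_sup_left
      exact h3.trans (sup_le (h1 i) (iSup_le fun j => iSup_le fun hj => ih j hj))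
  refine ⟨y, le_antisymm (le_iSup ψ y) (iSup_le fun z => h2 ⟨ψ z, z, rfl⟩)⟩

end BSet

end Pool.Agent.Lib.MP_4d8715_gt.KR
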