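import Pool.Agent.Lib.MP_4d8715_gt.KR.Z.Basic

/-! # Values of formulas (module Z-FORM)

Everything by induction on the formula / unfolding. For `bv_rename`, `sat_rename` under a quantifier:
`Fin.cons x v ∘ Fin.cases 0 (fun i => (f i).succ) = Fin.cons x (v ∘ f)` (by `funext`, `Fin.cases`). -/

universe u

namespace Pool.Agent.Lib.MP_4d8715_gt.KR

namespace Fml

theorem form_cons_comp {M : Type*} {n m : ℕ} (f : Fin n → Fin m) (x : M) (v : Fin m → M) :
    (Fin.cons x v : Fin (m + 1) → M) ∘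
      (Fin.cases 0 (fun i => (f i).succ) : Fin (n + 1) → Fin (m + 1)) =
      (Fin.cons x (v ∘ f) : Fin (n + 1) → M) := by
  funext i
  refine Fin.cases ?_ (fun i => ?_) i
  · rfl
  · rfl

section Sat

variable {M : Type*} (E : M → M → Prop) {n m : ℕ}

@[simp] theorem sat_mem (i j : Fin n) (v : Fin n → M) : Sat E (mem i j) v ↔ E (v i) (v j) := Iff.rfl
@[simp] theorem sat_eq (i j : Fin n) (v : Fin n → M) : Sat E (eq i j) v ↔ v i = v j := Iff.rfl
@[simp] theorem sat_bot (v : Fin n → M) : Sat E (bot : Fml n) v ↔ False := Iff.rfl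
@[simp] theorem sat_imp (φ ψ : Fml n) (v : Fin n → M) :
    Sat E (imp φ ψ) v ↔ (Sat E φ v → Sat E ψ v) := Iff.rfl
@[simp] theorem sat_all (φ : Fml (n + 1)) (v : Fin n → M) :
    Sat E (all φ) v ↔ ∀ x, Sat E φ (Fin.cons x v) := Iff.rfl

@[simp] theorem sat_neg (φ : Fml n) (v : Fin n → M) : Sat E (neg φ) v ↔ ¬ Sat E φ v :=
  Iff.rfl
@[simp] theorem sat_and (φ ψ : Fml n) (v : Fin n → M) :
    Sat E (and φ ψ) v ↔ (Sat E φ v ∧ Sat E ψ v) := by
  change ((Sat E φ v → (Sat E ψ v → False)) → False) ↔ _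
  tauto
@[simp] theorem sat_or (φ ψ : Fml n) (v : Fin n → M) :
    Sat E (or φ ψ) v ↔ (Sat E φ v ∨ Sat E ψ v) := by
  change ((Sat E φ v → False) → Sat E ψ v) ↔ _
  tauto
@[simp] theorem sat_iff (φ ψ : Fml n) (v : Fin n → M) :
    Sat E (iff φ ψ) v ↔ (Sat E φ v ↔ Sat E ψ v) := by
  rw [Fml.iff, sat_and, sat_imp, sat_imp]
  exact iff_def.symm
@[simp] theorem sat_ex (φ : Fml (n + 1)) (v : Fin n → M) :
    Sat E (ex φ) v ↔ ∃ x, Sat E φ (Fin.cons x v) := by
  change ((∀ x, (Sat E φ (Fin.cons x v) → False)) → False) ↔ _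
  exact not_forall_not
@[simp] theorem sat_rename (f : Fin n → Fin m) (φ : Fml n) (v : Fin m → M) :
    Sat E (rename f φ) v ↔ Sat E φ (v ∘ f) := by
  induction φ generalizing m with
  | mem i j => exact Iff.rfl
  | eq i j => exact Iff.rfl
  | bot => exact Iff.rfl
  | imp φ ψ h1 h2 => rw [rename, sat_imp, sat_imp, h1, h2]
  | all φ h =>
    rw [rename, sat_all, sat_all]
    refine forall_congr' fun x => ?_
    rw [h, form_cons_comp]
theorem sat_closure (φ : Fml n) : Sat E (closure φ) ![] ↔ ∀ v : Fin n → M, Sat E φ v := by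
  induction n with
  | zero =>
    refine ⟨fun h v => ?_, fun h => h _⟩
    rw [Subsingleton.elim v ![]]
    exact h
  | succ n ih =>
    rw [closure, ih]
    refine ⟨fun h v => ?_, fun h v x => h _⟩
    have := h (Fin.tail v) (v 0)
    rwa [Fin.cons_self_tail] at this

end Sat

section bv

variable {B : Type u} [CompleteBooleanAlgebra B] {n m : ℕ}

@[simp] theorem bv_mem (i j : Fin n) (v : Fin n → BSet B) :
    bv (mem i j) v = BSet.bmem (v i) (v j) := rfl
@[simp] theorem bv_eq (i j : Fin n) (v : Fin n → BSet B) :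
    bv (eq i j) v = BSet.beq (v i) (v j) := rfl
@[simp] theorem bv_bot (v : Fin n → BSet B) : bv (bot : Fml n) v = ⊥ := rfl
@[simp] theorem bv_imp (φ ψ : Fml n) (v : Fin n → BSet B) : bv (imp φ ψ) v = bv φ v ⇨ bv ψ v := rfl
@[simp] theorem bv_all (φ : Fml (n + 1)) (v : Fin n → BSet B) :
    bv (all φ) v = ⨅ x, bv φ (Fin.cons x v) := rfl

@[simp] theorem bv_neg (φ : Fml n) (v : Fin n → BSet B) : bv (neg φ) v = (bv φ v)ᶜ := by
  rw [neg, bv_imp, bv_bot, himp_bot]
@[simp] theorem bv_and (φ ψ : Fml n) (v : Fin n → BSet B) :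
    bv (and φ ψ) v = bv φ v ⊓ bv ψ v := by
  rw [Fml.and, bv_neg, bv_imp, bv_neg, compl_himp, sdiff_compl]
@[simp] theorem bv_or (φ ψ : Fml n) (v : Fin n → BSet B) :
    bv (or φ ψ) v = bv φ v ⊔ bv ψ v := by
  rw [Fml.or, bv_imp, bv_neg, himp_eq, compl_compl, sup_comm]
@[simp] theorem bv_iff (φ ψ : Fml n) (v : Fin n → BSet B) :
    bv (iff φ ψ) v = (bv φ v ⇨ bv ψ v) ⊓ (bv ψ v ⇨ bv φ v) := by
  rw [Fml.iff, bv_and, bv_imp, bv_imp]
@[simp] theorem bv_ex (φ : Fml (n + 1)) (v : Fin n → BSet B) :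
    bv (ex φ) v = ⨆ x, bv φ (Fin.cons x v) := by
  rw [ex, bv_neg, bv_all, compl_iInf]
  simp only [bv_neg, compl_compl]
@[simp] theorem bv_rename (f : Fin n → Fin m) (φ : Fml n) (v : Fin m → BSet B) :
    bv (rename f φ) v = bv φ (v ∘ f) := by
  induction φ generalizing m with
  | mem i j => rfl
  | eq i j => rfl
  | bot => rfl
  | imp φ ψ h1 h2 => rw [rename, bv_imp, bv_imp, h1, h2]
  | all φ h =>
    rw [rename, bv_all, bv_all]
    refine iInf_congr fun x => ?_
    rw [h, form_cons_comp]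
theorem bv_closure (φ : Fml n) :
    bv (closure φ) (![] : Fin 0 → BSet B) = ⨅ v : Fin n → BSet B, bv φ v := by
  induction n with
  | zero =>
    refine le_antisymm (le_iInf fun v => ?_) (iInf_le _ _)
    rw [Subsingleton.elim v ![]]
    exact le_rfl
  | succ n ih =>
    rw [closure, ih]
    refine le_antisymm (le_iInf fun v => ?_) (le_iInf fun v => le_iInf fun x => iInf_le _ _)
    refine (iInf_le _ (Fin.tail v)).trans ?_
    rw [bv_all]
    refine (iInf_le _ (v 0)).trans ?_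
    rw [Fin.cons_self_tail]

/-- the value of a formula respects equality -/
theorem bv_congr (φ : Fml n) (v w : Fin n → BSet B) :
    (⨅ i, BSet.beq (v i) (w i)) ⊓ bv φ v ≤ bv φ w := by
  induction φ with
  | mem i j =>
    rw [bv_mem, bv_mem]
    refine le_trans (le_inf (inf_le_left.trans (iInf_le _ j)) ?_)
      (BSet.bmem_congr_right (w i) (v j) (w j))
    exact le_trans (inf_le_inf_right _ (iInf_le _ i)) (BSet.bmem_congr_left (v i) (w i) (v j))
  | eq i j =>
    rw [bv_eq, bv_eq]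
    refine le_trans (le_inf ?_ (inf_le_left.trans (iInf_le _ j))) (BSet.beq_trans (w i) (v j) (w j))
    refine le_trans (le_inf ?_ inf_le_right) (BSet.beq_trans (w i) (v i) (v j))
    rw [BSet.beq_symm (w i) (v i)]
    exact inf_le_left.trans (iInf_le _ i)
  | bot => exact inf_le_right
  | imp φ ψ h1 h2 =>
    rw [bv_imp, bv_imp, le_himp_iff]
    refine le_trans (le_inf (inf_le_left.trans inf_le_left) ?_) (h2 v w)
    have h3 : (⨅ i, BSet.beq (v i) (w i)) ⊓ bv φ w ≤ bv φ v := by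
      refine le_trans (inf_le_inf_right _ ?_) (h1 w v)
      exact le_iInf fun i => (iInf_le _ i).trans (le_of_eq (BSet.beq_symm _ _))
    have h4 : (bv φ v ⇨ bv ψ v) ⊓ bv φ v ≤ bv ψ v := himp_inf_le
    refine le_trans (le_inf (inf_le_left.trans inf_le_right) ?_) h4
    exact le_trans (le_inf (inf_le_left.trans inf_le_left) inf_le_right) h3
  | all φ h =>
    rw [bv_all, bv_all]
    refine le_iInf fun x => ?_
    refine le_trans (inf_le_inf ?_ (iInf_le _ x)) (h (Fin.cons x v) (Fin.cons x w))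
    refine le_iInf fun i => ?_
    refine Fin.cases ?_ (fun i => ?_) i
    · rw [Fin.cons_zero, Fin.cons_zero, BSet.beq_refl]
      exact le_top
    · rw [Fin.cons_succ, Fin.cons_succ]
      exact iInf_le _ i

theorem ext_bv (φ : Fml (n + 1)) (v : Fin n → BSet B) :
    BSet.Ext (fun x => bv φ (Fin.cons x v)) := by
  intro x y
  refine le_trans (inf_le_inf_right _ ?_) (bv_congr φ (Fin.cons x v) (Fin.cons y v))
  refine le_iInf fun i => ?_
  refine Fin.cases ?_ (fun i => ?_) i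
  · rw [Fin.cons_zero, Fin.cons_zero]
  · rw [Fin.cons_succ, Fin.cons_succ, BSet.beq_refl]
    exact le_top

end bv

end Fml

end Pool.Agent.Lib.MP_4d8715_gt.KR
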