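import Pool.Agent.Lib.MP_4d8715_gt.KR.Z.Basic

/-! # Bounded quantifiers, separation, power set (module Z-QUANT) -/

universe u

namespace Pool.Agent.Lib.MP_4d8715_gt.KR

namespace BSet

variable {B : Type u} [CompleteBooleanAlgebra B]

theorem iInf_mem (y : BSet B) (ψ : BSet B → B) (hψ : Ext ψ) :
    (⨅ x, bmem x y ⇨ ψ x) = ⨅ i, y.val i ⇨ ψ (y.func i) := by
  refine le_antisymm (le_iInf fun i => ?_) (le_iInf fun x => ?_)
  · exact (iInf_le _ (y.func i)).trans (himp_le_himp_right (val_le_bmem y i))
  · rw [le_himp_iff, bmem_def, inf_iSup_eq]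
    refine iSup_le fun i => ?_
    refine le_trans ?_ (hψ (y.func i) x)
    rw [beq_symm (y.func i) x]
    refine le_inf (inf_le_right.trans inf_le_right) ?_
    have h1 : (⨅ i, y.val i ⇨ ψ (y.func i)) ⊓ y.val i ≤ ψ (y.func i) := by
      rw [← le_himp_iff]
      exact iInf_le _ i
    exact le_trans (le_inf inf_le_left (inf_le_right.trans inf_le_left)) h1

theorem iSup_mem (y : BSet B) (ψ : BSet B → B) (hψ : Ext ψ) :
    (⨆ x, bmem x y ⊓ ψ x) = ⨆ i, y.val i ⊓ ψ (y.func i) := by
  refine le_antisymm (iSup_le fun x => ?_) (iSup_le fun i => ?_)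
  · rw [bmem_def, iSup_inf_eq]
    refine iSup_le fun i => le_iSup_of_le i ?_
    refine le_inf (inf_le_left.trans inf_le_left) ?_
    exact le_trans (le_inf (inf_le_left.trans inf_le_right) inf_le_right) (hψ x (y.func i))
  · exact le_iSup_of_le (y.func i) (inf_le_inf_right _ (val_le_bmem y i))

/-- Boolean-valued extensionality -/
theorem beq_ext (x y : BSet B) :
    beq x y = ⨅ z, (bmem z x ⇨ bmem z y) ⊓ (bmem z y ⇨ bmem z x) := by
  refine le_antisymm (le_iInf fun z => le_inf ?_ ?_) ?_
  · rw [le_himp_iff]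
    exact bmem_congr_right z x y
  · rw [le_himp_iff, beq_symm]
    exact bmem_congr_right z y x
  · conv_rhs => rw [beq_def]
    refine le_inf (le_iInf fun i => ?_) (le_iInf fun j => ?_)
    · exact ((iInf_le _ (x.func i)).trans inf_le_left).trans
        (himp_le_himp_right (val_le_bmem x i))
    · exact ((iInf_le _ (y.func j)).trans inf_le_right).trans
        (himp_le_himp_right (val_le_bmem y j))

theorem bmem_sep (a : BSet B) (ψ : BSet B → B) (hψ : Ext ψ) (x : BSet B) :
    bmem x (sep a ψ) = bmem x a ⊓ ψ x := by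
  rw [sep, basic_bmem_mk, bmem_def]
  refine le_antisymm (iSup_le fun i => le_inf ?_ ?_) ?_
  · exact le_iSup_of_le i (inf_le_inf_right _ inf_le_left)
  · refine le_trans ?_ (hψ (a.func i) x)
    rw [beq_symm (a.func i) x]
    exact le_inf inf_le_right (inf_le_left.trans inf_le_right)
  · rw [iSup_inf_eq]
    refine iSup_le fun i => le_iSup_of_le i ?_
    refine le_inf (le_inf (inf_le_left.trans inf_le_left) ?_) (inf_le_left.trans inf_le_right)
    exact le_trans (le_inf (inf_le_left.trans inf_le_right) inf_le_right) (hψ x (a.func i))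

theorem quant_ext_bmem (a : BSet B) : Ext fun z => bmem z a := fun x y => bmem_congr_left x y a

/-- (`≥`: given `x`, take `f i = bmem (a.func i) x`.) -/
theorem bmem_power (a x : BSet B) : bmem x (power a) = ⨅ z, bmem z x ⇨ bmem z a := by
  rw [power, basic_bmem_mk]
  refine le_antisymm (iSup_le fun f => le_iInf fun z => ?_) ?_
  · have h1 : (⨅ i, f i ⇨ bmem (a.func i) a) = ⨅ z, bmem z (mk a.type a.func f) ⇨ bmem z a :=
      (iInf_mem (mk a.type a.func f) (fun z => bmem z a) (quant_ext_bmem a)).symm
    rw [h1, le_himp_iff]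
    have h2 : (⨅ z, bmem z (mk a.type a.func f) ⇨ bmem z a) ⊓ bmem z (mk a.type a.func f) ≤
        bmem z a := by
      rw [← le_himp_iff]
      exact iInf_le _ z
    refine le_trans (le_inf (inf_le_left.trans inf_le_left) ?_) h2
    exact le_trans (inf_le_inf_right _ inf_le_right) (bmem_congr_right z x _)
  · refine le_iSup_of_le (fun i => bmem (a.func i) x) (le_inf (le_iInf fun i => iInf_le _ _) ?_)
    rw [beq_def]
    refine le_inf (le_iInf fun i => ?_) (le_iInf fun j => ?_)
    · rw [le_himp_iff]
      have h1 : (⨅ z, bmem z x ⇨ bmem z a) ⊓ x.val i ≤ bmem (x.func i) a ⊓ x.val i := by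
        refine le_inf ?_ inf_le_right
        refine le_trans (inf_le_inf_left _ (val_le_bmem x i)) ?_
        rw [← le_himp_iff]
        exact iInf_le _ (x.func i)
      refine h1.trans ?_
      rw [bmem_def (x.func i) a, iSup_inf_eq, basic_bmem_mk]
      refine iSup_le fun j => le_iSup_of_le j ?_
      refine le_inf ?_ (inf_le_left.trans inf_le_right)
      exact le_trans (inf_le_inf inf_le_right (val_le_bmem x i)) (bmem_congr_left _ _ x)
    · rw [le_himp_iff]
      exact inf_le_right

end BSet

end Pool.Agent.Lib.MP_4d8715_gt.KR
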