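import Pool.Agent.Lib.MP_4d8715_gt.KR.Z.Form
import Pool.Agent.Lib.MP_4d8715_gt.KR.Z.Quant
import Pool.Agent.Lib.MP_4d8715_gt.KR.Z.Full

/-! # Infinity and choice (module Z-AX3)

Infinity: `omega` below. Choice: let `a` be the given set and let `Γ` be the value of the hypothesis.
Let `I = Σ i : a.type, (a.func i).type` with `el (i,j) = (a.func i).func j`, well-ordered by `r`. The
transversal is `c = mk I el (fun p => ⨆ i, a.val i ⊓ bmem (el p) (a.func i) ⊓ ⨅ q, (r q p → (bmem (el q) (a.func i))ᶜ))`: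
`el p` is in `c` if it is the first element (in the enumeration of `I`) of some member of `a`. -/

universe u

namespace Pool.Agent.Lib.MP_4d8715_gt.KR

namespace BSet

variable {B : Type u} [CompleteBooleanAlgebra B]

/-- the empty set -/
def empty : BSet B := mk PEmpty PEmpty.elim PEmpty.elim

/-- `x ∪ {x}` -/
def succ (x : BSet B) : BSet B :=
  mk (Option x.type) (fun i => i.elim x x.func) (fun i => i.elim ⊤ x.val)

/-- the natural numbers -/
def nat : ℕ → BSet B
  | 0 => empty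
  | n + 1 => succ (nat n)

/-- the set of the natural numbers -/
def omega : BSet B := mk (ULift ℕ) (fun n => nat n.down) (fun _ => ⊤)

/-! ### generalised elements -/

private theorem ax3_sup {ι : Sort*} {b Y : B} {Z : ι → B} (h : b ≤ ⨆ q, Z q)
    (h' : ∀ q, ∀ b', b' ≤ b → b' ≤ Z q → b' ≤ Y) : b ≤ Y :=
  calc b ≤ b ⊓ ⨆ q, Z q := le_inf le_rfl h
    _ = ⨆ q, b ⊓ Z q := inf_iSup_eq _ _
    _ ≤ Y := iSup_le fun q => h' q _ inf_le_left inf_le_right

private theorem ax3_imp {b X Y : B} (h : ∀ b', b' ≤ b → b' ≤ X → b' ≤ Y) : b ≤ X ⇨ Y :=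
  le_himp_iff.mpr (h _ inf_le_left inf_le_right)

private theorem ax3_mp {b X Y : B} (h : b ≤ X ⇨ Y) (h' : b ≤ X) : b ≤ Y :=
  (le_inf h h').trans (le_himp_iff.mp le_rfl)

private theorem ax3_compl {b X : B} (h : ∀ b', b' ≤ b → b' ≤ X → b' ≤ ⊥) : b ≤ Xᶜ := by
  rw [← himp_bot]
  exact ax3_imp h

private theorem ax3_false {b X : B} (h : b ≤ X) (h' : b ≤ Xᶜ) : b ≤ ⊥ := by
  have := le_inf h h'
  rwa [inf_compl_self] at this

section first

variable {I : Type u} (el : I → BSet B) (r : I → I → Prop)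

/-- `el p` is the first element of `s` -/
private def ax3F (s : BSet B) (p : I) : B :=
  bmem (el p) s ⊓ ⨅ q, ⨅ (_ : r q p), (bmem (el q) s)ᶜ

private theorem ax3F_mem {s : BSet B} {p : I} {b : B} (h : b ≤ ax3F el r s p) :
    b ≤ bmem (el p) s := h.trans inf_le_left

private theorem ax3F_not {s : BSet B} {p q : I} {b : B} (h : b ≤ ax3F el r s p) (hq : r q p) :
    b ≤ (bmem (el q) s)ᶜ :=
  h.trans (inf_le_right.trans ((iInf_le _ q).trans (iInf_le _ hq)))

private theorem ax3F_congr {s s' : BSet B} {p : I} {b : B} (h : b ≤ beq s s')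
    (hF : b ≤ ax3F el r s p) : b ≤ ax3F el r s' p := by
  refine le_inf ?_ (le_iInf fun q => le_iInf fun hq => ?_)
  · exact (le_inf h (ax3F_mem el r hF)).trans (bmem_congr_right _ _ _)
  · refine ax3_compl fun b' hb' hm => ?_
    have h1 : b' ≤ beq s' s := by rw [beq_symm]; exact hb'.trans h
    exact ax3_false ((le_inf h1 hm).trans (bmem_congr_right _ _ _))
      (hb'.trans (ax3F_not el r hF hq))

private theorem ax3F_disj [IsWellOrder I r] {s : BSet B} {p q : I} {b : B} (hpq : p ≠ q)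
    (hp : b ≤ ax3F el r s p) (hq : b ≤ ax3F el r s q) : b ≤ ⊥ := by
  rcases trichotomous_of r p q with h | h | h
  · exact ax3_false (ax3F_mem el r hp) (ax3F_not el r hq h)
  · exact absurd h hpq
  · exact ax3_false (ax3F_mem el r hq) (ax3F_not el r hp h)

private theorem ax3F_sup [IsWellOrder I r] (s : BSet B) (p : I) :
    bmem (el p) s ≤ ⨆ q, ax3F el r s q := by
  have wf : WellFounded r := IsWellFounded.wf
  induction p using wf.induction with
  | _ p ih =>
    set N : B := ⨅ q, ⨅ (_ : r q p), (bmem (el q) s)ᶜ with hN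
    have h1 : bmem (el p) s ≤ (bmem (el p) s ⊓ N) ⊔ Nᶜ := by
      calc bmem (el p) s = (bmem (el p) s ⊓ N) ⊔ (bmem (el p) s ⊓ Nᶜ) := by
            rw [← inf_sup_left, sup_compl_eq_top, inf_top_eq]
        _ ≤ _ := sup_le_sup_left inf_le_right _
    refine h1.trans (sup_le ?_ ?_)
    · exact le_iSup (fun q => ax3F el r s q) p
    · rw [hN, compl_iInf]
      refine iSup_le fun q => ?_
      rw [compl_iInf]
      refine iSup_le fun hq => ?_
      rw [compl_compl]
      exact ih q hq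

end first

theorem bmem_succ (z x : BSet B) : bmem z (succ x) = bmem z x ⊔ beq z x := by
  rw [bmem_def, bmem_def]
  apply le_antisymm
  · refine iSup_le fun i => ?_
    rcases i with _ | i
    · change ⊤ ⊓ beq z x ≤ _
      rw [top_inf_eq]
      exact le_sup_right
    · exact le_sup_of_le_left (le_iSup (fun i => x.val i ⊓ beq z (x.func i)) i)
  · refine sup_le (iSup_le fun i => ?_) ?_
    · exact le_iSup (fun i => (succ x).val i ⊓ beq z ((succ x).func i)) (some i)
    · refine le_trans ?_ (le_iSup (fun i => (succ x).val i ⊓ beq z ((succ x).func i)) none)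
      change _ ≤ ⊤ ⊓ beq z x
      rw [top_inf_eq]

theorem bmem_empty (z : BSet B) : bmem z (empty : BSet B) = ⊥ := by
  rw [bmem_def]
  refine le_antisymm (iSup_le fun i => ?_) bot_le
  exact PEmpty.elim i

theorem bmem_nat_omega (n : ℕ) : bmem (nat n : BSet B) omega = ⊤ := by
  apply top_unique
  rw [bmem_def]
  refine le_trans ?_ (le_iSup (fun i => omega.val i ⊓ beq (nat n) (omega.func i)) (ULift.up n))
  change ⊤ ≤ ⊤ ⊓ beq (nat n) (nat n)
  rw [beq_refl, top_inf_eq]

end BSet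

namespace Fml

variable {B : Type u} [CompleteBooleanAlgebra B]

open BSet

theorem bv_axInf : bv axInf (![] : Fin 0 → BSet B) = ⊤ := by
  apply top_unique
  unfold axInf
  rw [bv_ex]
  refine le_trans ?_ (le_iSup _ omega)
  rw [bv_and]
  refine le_inf ?_ ?_
  · rw [bv_ex]
    refine le_trans ?_ (le_iSup _ empty)
    rw [bv_and]
    refine le_inf ?_ ?_
    · change ⊤ ≤ bmem (empty : BSet B) omega
      exact (bmem_nat_omega 0).ge
    · rw [bv_all]
      refine le_iInf fun z => ?_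
      rw [bv_neg]
      change ⊤ ≤ (bmem z empty)ᶜ
      rw [bmem_empty, compl_bot]
  · rw [bv_all]
    set φ : Fml 2 := ex (and (mem 0 2) (all (iff (mem 0 1) (or (mem 0 2) (eq 0 2))))) with hφ
    set v : Fin 1 → BSet B := Fin.cons omega ![] with hv
    have h1 : (⨅ x, bv (imp (mem 0 1) φ) (Fin.cons x v)) =
        ⨅ x, bmem x omega ⇨ (fun x => bv φ (Fin.cons x v)) x := rfl
    rw [h1, iInf_mem omega _ (ext_bv φ v)]
    refine le_iInf fun n => ?_
    obtain ⟨n⟩ := n
    change ⊤ ≤ ⊤ ⇨ bv φ (Fin.cons (nat n) v)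
    rw [top_himp, hφ, bv_ex]
    refine le_trans ?_ (le_iSup _ (nat (n + 1)))
    rw [bv_and]
    refine le_inf ?_ ?_
    · change ⊤ ≤ bmem (nat (n + 1) : BSet B) omega
      exact (bmem_nat_omega (n + 1)).ge
    · rw [bv_all]
      refine le_iInf fun z => ?_
      rw [bv_iff, bv_or]
      change ⊤ ≤ (bmem z (succ (nat n)) ⇨ (bmem z (nat n) ⊔ beq z (nat n))) ⊓
        ((bmem z (nat n) ⊔ beq z (nat n)) ⇨ bmem z (succ (nat n)))
      rw [bmem_succ, himp_self, top_inf_eq]

theorem bv_axChoice : bv axChoice (![] : Fin 0 → BSet B) = ⊤ := by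
  classical
  apply top_unique
  unfold axChoice
  rw [bv_all]
  refine le_iInf fun a => ?_
  rw [bv_imp]
  refine ax3_imp fun Γ _ hΓ => ?_
  rw [bv_and] at hΓ
  have hH1 := hΓ.trans inf_le_left
  have hH2 := hΓ.trans inf_le_right
  have H1 : ∀ x : BSet B, Γ ≤ bmem x a ⇨ ⨆ y, bmem y x := by
    intro x
    rw [bv_all] at hH1
    have h2 := hH1.trans (iInf_le _ x)
    rw [bv_imp, bv_ex] at h2
    exact h2
  have H2 : ∀ x x' : BSet B, Γ ≤ (bmem x' a ⊓ (bmem x a ⊓ ⨆ z, (bmem z x' ⊓ bmem z x))) ⇨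
      beq x' x := by
    intro x x'
    rw [bv_all] at hH2
    have h2 := hH2.trans (iInf_le _ x)
    rw [bv_all] at h2
    have h3 := h2.trans (iInf_le _ x')
    rw [bv_imp, bv_and, bv_and, bv_ex] at h3
    simp only [bv_and] at h3
    exact h3
  -- the transversal
  let I := Σ i : a.type, (a.func i).type
  let el : I → BSet B := fun p => (a.func p.1).func p.2
  let r : I → I → Prop := WellOrderingRel
  have hr : IsWellOrder I r := inferInstance
  let c : BSet B := BSet.mk I el (fun p => ⨆ i, a.val i ⊓ ax3F el r (a.func i) p)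
  have hc : ∀ t, bmem t c = ⨆ p, (⨆ i, a.val i ⊓ ax3F el r (a.func i) p) ⊓ beq t (el p) := by
    intro t
    rw [bmem_def]
    rfl
  rw [bv_ex]
  refine le_trans ?_ (le_iSup _ c)
  rw [bv_all]
  set φ : Fml 3 := ex (all (iff (and (mem 0 2) (mem 0 3)) (eq 0 1))) with hφ
  set v : Fin 2 → BSet B := Fin.cons c (Fin.cons a ![]) with hv
  have h1 : (⨅ x, bv (imp (mem 0 2) φ) (Fin.cons x v)) =
      ⨅ x, bmem x a ⇨ (fun x => bv φ (Fin.cons x v)) x := rfl
  rw [h1, iInf_mem a _ (ext_bv φ v)]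
  refine le_iInf fun i => ?_
  refine ax3_imp fun b hbΓ hbi => ?_
  -- the set `a.func i` is not empty
  have hai : b ≤ bmem (a.func i) a := hbi.trans (val_le_bmem a i)
  have hne : b ≤ ⨆ y, bmem y (a.func i) := ax3_mp (hbΓ.trans (H1 _)) hai
  have hfirst : b ≤ ⨆ p, ax3F el r (a.func i) p := by
    refine ax3_sup hne fun y b₁ hb₁ hy => ?_
    rw [bmem_def] at hy
    refine ax3_sup hy fun j b₂ hb₂ hj => ?_
    have h2 : b₂ ≤ bmem (el ⟨i, j⟩) (a.func i) := (hj.trans inf_le_left).trans (val_le_bmem _ j)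
    exact h2.trans (ax3F_sup el r _ _)
  refine ax3_sup hfirst fun p b₁ hb₁ hp => ?_
  rw [hφ, bv_ex]
  refine le_trans ?_ (le_iSup _ (el p))
  rw [bv_all]
  refine le_iInf fun t => ?_
  rw [bv_iff, bv_and]
  change b₁ ≤ ((bmem t (a.func i) ⊓ bmem t c) ⇨ beq t (el p)) ⊓
    (beq t (el p) ⇨ (bmem t (a.func i) ⊓ bmem t c))
  refine le_inf ?_ ?_
  · refine ax3_imp fun b₂ hb₂ ht => ?_
    have ht1 := ht.trans inf_le_left
    have ht2 := ht.trans inf_le_right
    rw [hc] at ht2
    refine ax3_sup ht2 fun q b₃ hb₃ hq => ?_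
    have hq1 := hq.trans inf_le_left
    have hq2 := hq.trans inf_le_right
    refine ax3_sup hq1 fun k b₄ hb₄ hk => ?_
    have hk1 := hk.trans inf_le_left
    have hk2 := hk.trans inf_le_right
    have hle : b₄ ≤ b₁ := hb₄.trans (hb₃.trans hb₂)
    -- `a.func k = a.func i`
    have hmeet : b₄ ≤ ⨆ z, (bmem z (a.func k) ⊓ bmem z (a.func i)) := by
      refine le_trans (le_inf ?_ ?_)
        (le_iSup (fun z => bmem z (a.func k) ⊓ bmem z (a.func i)) t)
      · have h3 : b₄ ≤ beq (el q) t := by rw [beq_symm]; exact hb₄.trans hq2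
        exact (le_inf h3 (ax3F_mem el r hk2)).trans (bmem_congr_left _ _ _)
      · exact (hb₄.trans hb₃).trans ht1
    have heq : b₄ ≤ beq (a.func k) (a.func i) := by
      refine ax3_mp ((hle.trans (hb₁.trans hbΓ)).trans (H2 (a.func i) (a.func k))) ?_
      refine le_inf ?_ (le_inf ?_ hmeet)
      · exact hk1.trans (val_le_bmem a k)
      · exact (hle.trans hb₁).trans hai
    have hFq : b₄ ≤ ax3F el r (a.func i) q := ax3F_congr el r heq hk2
    by_cases hpq : p = q
    · rw [hpq]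
      exact hb₄.trans hq2
    · exact (ax3F_disj el r hpq (hle.trans hp) hFq).trans bot_le
  · refine ax3_imp fun b₂ hb₂ ht => ?_
    refine le_inf ?_ ?_
    · have h3 : b₂ ≤ beq (el p) t := by rw [beq_symm]; exact ht
      exact (le_inf h3 (ax3F_mem el r (hb₂.trans hp))).trans (bmem_congr_left _ _ _)
    · rw [hc]
      refine le_trans (le_inf ?_ ht) (le_iSup (fun p => (⨆ i, a.val i ⊓
        ax3F el r (a.func i) p) ⊓ beq t (el p)) p)
      exact le_trans (le_inf ((hb₂.trans hb₁).trans hbi) (hb₂.trans hp))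
        (le_iSup (fun i => a.val i ⊓ ax3F el r (a.func i) p) i)

end Fml

end Pool.Agent.Lib.MP_4d8715_gt.KR
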