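import Pool.Agent.Lib.MP_4d8715_gt.KR.Z.Form
import Pool.Agent.Lib.MP_4d8715_gt.KR.Z.Quant

/-! # Extensionality, pairs, unions, power sets, separation (module Z-AX1) -/

universe u

namespace Pool.Agent.Lib.MP_4d8715_gt.KR

namespace Fml

variable {B : Type u} [CompleteBooleanAlgebra B]

theorem ax1_iff {a b : B} (h : a = b) : ⊤ ≤ (a ⇨ b) ⊓ (b ⇨ a) := by
  rw [h, himp_self, inf_top_eq]

theorem bv_axExt : bv axExt (![] : Fin 0 → BSet B) = ⊤ := by
  simp only [axExt, bv_all, bv_imp, bv_iff, bv_mem, bv_eq]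
  refine top_unique (le_iInf fun x => le_iInf fun y => ?_)
  change ⊤ ≤ (⨅ z, (BSet.bmem z y ⇨ BSet.bmem z x) ⊓ (BSet.bmem z x ⇨ BSet.bmem z y)) ⇨
    BSet.beq y x
  rw [← BSet.beq_ext, himp_self]

theorem bv_axPair : bv axPair (![] : Fin 0 → BSet B) = ⊤ := by
  simp only [axPair, bv_all, bv_iff, bv_mem, bv_eq, bv_ex, bv_or]
  refine top_unique (le_iInf fun x => le_iInf fun y => ?_)
  refine le_iSup_of_le (BSet.mk (ULift Bool) (fun b => cond b.down y x) (fun _ => ⊤))
    (le_iInf fun z => ?_)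
  refine ax1_iff ?_
  change BSet.bmem z (BSet.mk (ULift Bool) (fun b => cond b.down y x) (fun _ => ⊤)) =
    BSet.beq z y ⊔ BSet.beq z x
  rw [BSet.basic_bmem_mk]
  refine le_antisymm (iSup_le fun b => ?_) (sup_le ?_ ?_)
  · obtain ⟨b⟩ := b
    cases b
    · exact inf_le_right.trans le_sup_right
    · exact inf_le_right.trans le_sup_left
  · exact le_iSup_of_le ⟨true⟩ (le_inf le_top le_rfl)
  · exact le_iSup_of_le ⟨false⟩ (le_inf le_top le_rfl)

theorem bv_axUnion : bv axUnion (![] : Fin 0 → BSet B) = ⊤ := by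
  simp only [axUnion, bv_all, bv_iff, bv_mem, bv_ex, bv_and]
  refine top_unique (le_iInf fun a => ?_)
  refine le_iSup_of_le (BSet.mk (Σ i : a.type, (a.func i).type)
    (fun p => (a.func p.1).func p.2) (fun p => a.val p.1 ⊓ (a.func p.1).val p.2))
    (le_iInf fun z => ?_)
  refine ax1_iff ?_
  change BSet.bmem z (BSet.mk (Σ i : a.type, (a.func i).type)
    (fun p => (a.func p.1).func p.2) (fun p => a.val p.1 ⊓ (a.func p.1).val p.2)) =
    ⨆ w, BSet.bmem w a ⊓ BSet.bmem z w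
  rw [BSet.iSup_mem a (fun w => BSet.bmem z w) (fun x y => BSet.bmem_congr_right z x y),
    BSet.basic_bmem_mk, iSup_sigma]
  refine iSup_congr fun i => ?_
  rw [BSet.bmem_def, inf_iSup_eq]
  exact iSup_congr fun k => inf_assoc _ _ _

theorem bv_axPower : bv axPower (![] : Fin 0 → BSet B) = ⊤ := by
  simp only [axPower, bv_all, bv_imp, bv_iff, bv_mem, bv_ex]
  refine top_unique (le_iInf fun a => ?_)
  refine le_iSup_of_le (BSet.power a) (le_iInf fun z => ?_)
  refine ax1_iff ?_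
  exact BSet.bmem_power a z

theorem bv_axSep {n : ℕ} (φ : Fml (n + 1)) : bv (axSep φ) (![] : Fin 0 → BSet B) = ⊤ := by
  simp only [axSep, bv_closure, bv_all, bv_iff, bv_mem, bv_ex, bv_and, bv_rename]
  refine top_unique (le_iInf fun v => le_iInf fun a => ?_)
  refine le_iSup_of_le (BSet.sep a (fun z => bv φ (Fin.cons z v))) (le_iInf fun z => ?_)
  refine ax1_iff ?_
  have h : (Fin.cons z (Fin.cons (BSet.sep a (fun z => bv φ (Fin.cons z v))) (Fin.cons a v)) :
      Fin (n + 3) → BSet B) ∘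
      (Fin.cases 0 (fun i => i.succ.succ.succ) : Fin (n + 1) → Fin (n + 3)) =
      (Fin.cons z v : Fin (n + 1) → BSet B) := by
    funext i
    refine Fin.cases ?_ (fun i => ?_) i
    · rfl
    · rfl
  rw [h]
  exact BSet.bmem_sep a (fun z => bv φ (Fin.cons z v)) (ext_bv φ v) z

end Fml

end Pool.Agent.Lib.MP_4d8715_gt.KR
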