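import Pool.Agent.Lib.MP_4d8715_gt.KR.Z.Form
import Pool.Agent.Lib.MP_4d8715_gt.KR.Z.Quant
import Pool.Agent.Lib.MP_4d8715_gt.KR.Z.Full

/-! # Foundation and replacement (module Z-AX2) -/

universe u

namespace Pool.Agent.Lib.MP_4d8715_gt.KR

namespace Fml

variable {B : Type u} [CompleteBooleanAlgebra B]

theorem ax2_ext_compl (a : BSet B) : BSet.Ext fun z => (BSet.bmem z a)ᶜ := by
  intro x y
  change BSet.beq x y ⊓ (BSet.bmem x a)ᶜ ≤ (BSet.bmem y a)ᶜ
  rw [← himp_bot (BSet.bmem y a), le_himp_iff]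
  refine le_trans (le_inf (inf_le_left.trans inf_le_right) ?_)
    (compl_inf_eq_bot (a := BSet.bmem x a)).le
  rw [BSet.beq_symm x y]
  exact le_trans (le_inf (inf_le_left.trans inf_le_left) inf_le_right)
    (BSet.bmem_congr_left y x a)

theorem bv_axFound : bv axFound (![] : Fin 0 → BSet B) = ⊤ := by
  simp only [axFound, bv_all, bv_imp, bv_mem, bv_ex, bv_and, bv_neg]
  refine top_unique (le_iInf fun a => ?_)
  change ⊤ ≤ (⨆ x, BSet.bmem x a) ⇨ ⨆ y, BSet.bmem y a ⊓ ⨅ z, BSet.bmem z y ⇨ (BSet.bmem z a)ᶜ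
  rw [le_himp_iff, top_inf_eq]
  refine iSup_le fun x => ?_
  induction x with
  | mk α A b ih =>
    set c := ⨆ y, BSet.bmem y a ⊓ ⨅ z, BSet.bmem z y ⇨ (BSet.bmem z a)ᶜ with hc
    set D := ⨅ z, BSet.bmem z (BSet.mk α A b) ⇨ (BSet.bmem z a)ᶜ with hD
    have h1 : BSet.bmem (BSet.mk α A b) a ⊓ D ≤ c :=
      le_iSup (fun y => BSet.bmem y a ⊓ ⨅ z, BSet.bmem z y ⇨ (BSet.bmem z a)ᶜ) (BSet.mk α A b)
    have h2 : Dᶜ ≤ c := by
      rw [hD, BSet.iInf_mem _ _ (ax2_ext_compl a), compl_iInf]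
      refine iSup_le fun i => ?_
      rw [compl_himp, sdiff_compl]
      exact inf_le_right.trans (ih i)
    calc BSet.bmem (BSet.mk α A b) a
        = (BSet.bmem (BSet.mk α A b) a ⊓ D) ⊔ (BSet.bmem (BSet.mk α A b) a ⊓ Dᶜ) := by
          rw [← inf_sup_left, sup_compl_eq_top, inf_top_eq]
      _ ≤ c := sup_le h1 (inf_le_right.trans h2)

theorem bv_axRep {n : ℕ} (φ : Fml (n + 2)) : bv (axRep φ) (![] : Fin 0 → BSet B) = ⊤ := by
  simp only [axRep, bv_closure, bv_all, bv_imp, bv_iff, bv_mem, bv_ex, bv_and, bv_eq, bv_rename]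
  refine top_unique (le_iInf fun v => le_iInf fun a => ?_)
  have r1 : ∀ z y x : BSet B, (Fin.cons z (Fin.cons y (Fin.cons x (Fin.cons a v))) :
      Fin (n + 4) → BSet B) ∘
      (Fin.cases 2 (Fin.cases 0 (fun i => i.succ.succ.succ.succ)) : Fin (n + 2) → Fin (n + 4)) =
      (Fin.cons x (Fin.cons z v) : Fin (n + 2) → BSet B) := by
    intro z y x
    funext i
    refine Fin.cases ?_ (fun i => Fin.cases ?_ (fun i => ?_) i) i
    · rfl
    · rfl
    · rfl
  have r2 : ∀ x y b : BSet B, (Fin.cons x (Fin.cons y (Fin.cons b (Fin.cons a v))) :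
      Fin (n + 4) → BSet B) ∘
      (Fin.cases 0 (Fin.cases 1 (fun i => i.succ.succ.succ.succ)) : Fin (n + 2) → Fin (n + 4)) =
      (Fin.cons x (Fin.cons y v) : Fin (n + 2) → BSet B) := by
    intro x y b
    funext i
    refine Fin.cases ?_ (fun i => Fin.cases ?_ (fun i => ?_) i) i
    · rfl
    · rfl
    · rfl
  simp only [r1, r2]
  rw [le_himp_iff, top_inf_eq]
  set P : BSet B → BSet B → B := fun x y => bv φ (Fin.cons x (Fin.cons y v)) with hP
  change (⨅ x, BSet.bmem x a ⇨ ⨆ y, ⨅ z, (P x z ⇨ BSet.beq z y) ⊓ (BSet.beq z y ⇨ P x z)) ≤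
    ⨆ b, ⨅ y, (BSet.bmem y b ⇨ ⨆ x, BSet.bmem x a ⊓ P x y) ⊓
      ((⨆ x, BSet.bmem x a ⊓ P x y) ⇨ BSet.bmem y b)
  have hP1 : ∀ y, BSet.Ext fun x => P x y := fun y => ext_bv φ (Fin.cons y v)
  have hP2 : ∀ x, BSet.Ext fun y => P x y := by
    intro x y y'
    refine le_trans (inf_le_inf_right _ ?_)
      (bv_congr φ (Fin.cons x (Fin.cons y v)) (Fin.cons x (Fin.cons y' v)))
    refine le_iInf fun i => ?_
    refine Fin.cases ?_ (fun i => Fin.cases ?_ (fun i => ?_) i) i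
    · change _ ≤ BSet.beq x x
      rw [BSet.beq_refl]; exact le_top
    · exact le_rfl
    · change _ ≤ BSet.beq (v i) (v i)
      rw [BSet.beq_refl]; exact le_top
  have hmax : ∀ i : a.type, ∃ y, (⨅ z, (P (a.func i) z ⇨ BSet.beq z y) ⊓
      (BSet.beq z y ⇨ P (a.func i) z)) =
      ⨆ y, ⨅ z, (P (a.func i) z ⇨ BSet.beq z y) ⊓ (BSet.beq z y ⇨ P (a.func i) z) := by
    intro i
    have h := BSet.exists_max (fun y => bv (all (iff (rename (Fin.cases 2 (Fin.cases 0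
      (fun i => i.succ.succ.succ.succ))) φ) (eq 0 1))) (Fin.cons y (Fin.cons (a.func i)
        (Fin.cons a v)))) (ext_bv _ _)
    simp only [bv_all, bv_iff, bv_eq, bv_rename, r1] at h
    exact h
  choose y hy using hmax
  refine le_iSup_of_le (BSet.mk a.type y (fun i => a.val i ⊓ P (a.func i) (y i)))
    (le_iInf fun w => ?_)
  rw [BSet.iSup_mem a (fun x => P x w) (hP1 w), BSet.basic_bmem_mk]
  refine le_inf ?_ ?_
  · rw [le_himp_iff]
    refine inf_le_right.trans (iSup_le fun i => le_iSup_of_le i ?_)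
    refine le_inf (inf_le_left.trans inf_le_left) ?_
    refine le_trans (le_inf ?_ (inf_le_left.trans inf_le_right)) (hP2 (a.func i) (y i) w)
    rw [BSet.beq_symm]
    exact inf_le_right
  · rw [le_himp_iff, inf_iSup_eq]
    refine iSup_le fun i => le_iSup_of_le i ?_
    have h1 : (⨅ x, BSet.bmem x a ⇨ ⨆ y, ⨅ z, (P x z ⇨ BSet.beq z y) ⊓
        (BSet.beq z y ⇨ P x z)) ⊓ a.val i ≤ ⨅ z, (P (a.func i) z ⇨ BSet.beq z (y i)) ⊓
        (BSet.beq z (y i) ⇨ P (a.func i) z) := by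
      rw [hy i]
      refine le_trans (inf_le_inf_left _ (BSet.val_le_bmem a i)) ?_
      rw [← le_himp_iff]
      exact iInf_le _ (a.func i)
    have h2 : (⨅ z, (P (a.func i) z ⇨ BSet.beq z (y i)) ⊓
        (BSet.beq z (y i) ⇨ P (a.func i) z)) ⊓ P (a.func i) w ≤ BSet.beq w (y i) := by
      rw [← le_himp_iff]
      exact (iInf_le _ w).trans inf_le_left
    have h3 : (⨅ x, BSet.bmem x a ⇨ ⨆ y, ⨅ z, (P x z ⇨ BSet.beq z y) ⊓
        (BSet.beq z y ⇨ P x z)) ⊓ (a.val i ⊓ P (a.func i) w) ≤ BSet.beq w (y i) := by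
      refine le_trans (le_inf ?_ (inf_le_right.trans inf_le_right)) h2
      exact le_trans (le_inf inf_le_left (inf_le_right.trans inf_le_left)) h1
    refine le_inf (le_inf (inf_le_right.trans inf_le_left) ?_) h3
    exact le_trans (le_inf h3 (inf_le_right.trans inf_le_right)) (hP2 (a.func i) w (y i))

end Fml

end Pool.Agent.Lib.MP_4d8715_gt.KR
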