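import Pool.Agent.Lib.MP_4d8715_gt.KR.Z.Fml

/-!
# Boolean-valued sets

`BSet B` is the class of `B`-valued sets, `B` a complete Boolean algebra, with the Boolean values of
equality and membership and the Boolean value `bv` of formulas.
-/

universe u

namespace Pool.Agent.Lib.MP_4d8715_gt.KR

/-- `B`-valued sets -/
inductive BSet (B : Type u) : Type (u + 1)
  | mk (α : Type u) (A : α → BSet B) (b : α → B) : BSet B

namespace BSet

variable {B : Type u}

/-- the index type -/
def type : BSet B → Type u
  | mk α _ _ => α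

/-- the members -/
def func : (x : BSet B) → x.type → BSet B
  | mk _ A _ => A

/-- the values -/
def val : (x : BSet B) → x.type → B
  | mk _ _ b => b

variable [CompleteBooleanAlgebra B]

/-- Boolean value of equality -/
def beq : BSet B → BSet B → B
  | mk α A b, mk β A' b' =>
    (⨅ i : α, b i ⇨ ⨆ j : β, b' j ⊓ beq (A i) (A' j)) ⊓
      (⨅ j : β, b' j ⇨ ⨆ i : α, b i ⊓ beq (A i) (A' j))

/-- Boolean value of membership -/
def bmem (x : BSet B) : BSet B → B
  | mk β A' b' => ⨆ j : β, b' j ⊓ beq x (A' j)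

/-- a Boolean-valued predicate which respects equality -/
def Ext (ψ : BSet B → B) : Prop := ∀ x y, beq x y ⊓ ψ x ≤ ψ y

/-- the set `{x ∈ a | ψ x}` -/
def sep (a : BSet B) (ψ : BSet B → B) : BSet B := mk a.type a.func (fun i => a.val i ⊓ ψ (a.func i))

/-- the power set -/
def power (a : BSet B) : BSet B := mk (a.type → B) (fun f => mk a.type a.func f)
  (fun f => ⨅ i, f i ⇨ bmem (a.func i) a)

end BSet

/-- Boolean value of a formula -/
noncomputable def Fml.bv {B : Type u} [CompleteBooleanAlgebra B] :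
    {n : ℕ} → Fml n → (Fin n → BSet B) → B
  | _, .mem i j, v => BSet.bmem (v i) (v j)
  | _, .eq i j, v => BSet.beq (v i) (v j)
  | _, .bot, _ => ⊥
  | _, .imp φ ψ, v => Fml.bv φ v ⇨ Fml.bv ψ v
  | _, .all φ, v => ⨅ x, Fml.bv φ (Fin.cons x v)

end Pool.Agent.Lib.MP_4d8715_gt.KR
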