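import Pool.Agent.Lib.MP_4d8715_gt.KR.Z.BSet

/-! # Equality and membership (module Z-BASIC) -/

universe u

namespace Pool.Agent.Lib.MP_4d8715_gt.KR

namespace BSet

variable {B : Type u} [CompleteBooleanAlgebra B]

theorem basic_bmem_mk (x : BSet B) (β : Type u) (A' : β → BSet B) (b' : β → B) :
    bmem x (mk β A' b') = ⨆ j : β, b' j ⊓ beq x (A' j) := by
  simp only [bmem]

theorem bmem_def (x y : BSet B) : bmem x y = ⨆ i, y.val i ⊓ beq x (y.func i) := by
  cases y with
  | mk β A' b' => exact basic_bmem_mk x β A' b'

theorem basic_beq_mk (α β : Type u) (A : α → BSet B) (A' : β → BSet B) (b : α → B) (b' : β → B) :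
    beq (mk α A b) (mk β A' b') = (⨅ i : α, b i ⇨ ⨆ j : β, b' j ⊓ beq (A i) (A' j)) ⊓
      (⨅ j : β, b' j ⇨ ⨆ i : α, b i ⊓ beq (A i) (A' j)) := by
  simp only [beq]

theorem beq_symm (x y : BSet B) : beq x y = beq y x := by
  induction x generalizing y with
  | mk α A b ih =>
    cases y with
    | mk β A' b' =>
      rw [basic_beq_mk, basic_beq_mk, inf_comm]
      simp only [ih]

theorem beq_def (x y : BSet B) : beq x y =
    (⨅ i, x.val i ⇨ bmem (x.func i) y) ⊓ (⨅ j, y.val j ⇨ bmem (y.func j) x) := by
  cases x with
  | mk α A b =>
    cases y with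
    | mk β A' b' =>
      change _ = (⨅ i : α, b i ⇨ bmem (A i) (mk β A' b')) ⊓
        (⨅ j : β, b' j ⇨ bmem (A' j) (mk α A b))
      rw [basic_beq_mk]
      simp only [basic_bmem_mk]
      have : ∀ (i : α) (j : β), beq (A' j) (A i) = beq (A i) (A' j) := fun i j => beq_symm _ _
      simp only [this]

theorem beq_refl (x : BSet B) : beq x x = ⊤ := by
  induction x with
  | mk α A b ih =>
    rw [basic_beq_mk]
    refine top_unique (le_inf (le_iInf fun i => ?_) (le_iInf fun i => ?_))
    · rw [le_himp_iff, top_inf_eq]
      exact le_iSup_of_le i (by rw [ih, inf_top_eq])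
    · rw [le_himp_iff, top_inf_eq]
      exact le_iSup_of_le i (by rw [ih, inf_top_eq])

theorem basic_beq_le (x y : BSet B) (i : x.type) : beq x y ⊓ x.val i ≤ bmem (x.func i) y := by
  rw [← le_himp_iff, beq_def]
  exact inf_le_left.trans (iInf_le _ i)

theorem basic_beq_le' (x y : BSet B) (j : y.type) : beq x y ⊓ y.val j ≤ bmem (y.func j) x := by
  rw [← le_himp_iff, beq_def]
  exact inf_le_right.trans (iInf_le _ j)

theorem beq_trans (x y z : BSet B) : beq x y ⊓ beq y z ≤ beq x z := by
  induction x generalizing y z with
  | mk α A b ih =>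
    conv_rhs => rw [beq_def]
    refine le_inf (le_iInf fun i => ?_) (le_iInf fun k => ?_)
    · rw [le_himp_iff]
      have h1 := basic_beq_le (mk α A b) y i
      calc beq (mk α A b) y ⊓ beq y z ⊓ (mk α A b).val i
          = (beq (mk α A b) y ⊓ (mk α A b).val i) ⊓ beq y z := by
            rw [inf_assoc, inf_comm (beq y z), ← inf_assoc]
        _ ≤ bmem ((mk α A b).func i) y ⊓ beq y z := inf_le_inf_right _ h1
        _ ≤ bmem ((mk α A b).func i) z := by
            rw [bmem_def, iSup_inf_eq]
            refine iSup_le fun j => ?_
            have h2 := basic_beq_le y z j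
            calc y.val j ⊓ beq ((mk α A b).func i) (y.func j) ⊓ beq y z
                ≤ beq ((mk α A b).func i) (y.func j) ⊓ (beq y z ⊓ y.val j) := by
                  refine le_inf (inf_le_left.trans inf_le_right)
                    (le_inf inf_le_right (inf_le_left.trans inf_le_left))
              _ ≤ beq ((mk α A b).func i) (y.func j) ⊓ bmem (y.func j) z := inf_le_inf_left _ h2
              _ ≤ bmem ((mk α A b).func i) z := by
                  rw [bmem_def, bmem_def, inf_iSup_eq]
                  refine iSup_le fun k => le_iSup_of_le k ?_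
                  refine le_inf (inf_le_right.trans inf_le_left) ?_
                  refine le_trans ?_ (ih i (y.func j) (z.func k))
                  exact le_inf inf_le_left (inf_le_right.trans inf_le_right)
    · rw [le_himp_iff]
      have h1 := basic_beq_le' y z k
      calc beq (mk α A b) y ⊓ beq y z ⊓ z.val k
          = beq (mk α A b) y ⊓ (beq y z ⊓ z.val k) := inf_assoc _ _ _
        _ ≤ beq (mk α A b) y ⊓ bmem (z.func k) y := inf_le_inf_left _ h1
        _ ≤ bmem (z.func k) (mk α A b) := by
            rw [bmem_def _ y, inf_iSup_eq]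
            refine iSup_le fun j => ?_
            have h2 := basic_beq_le' (mk α A b) y j
            calc beq (mk α A b) y ⊓ (y.val j ⊓ beq (z.func k) (y.func j))
                ≤ (beq (mk α A b) y ⊓ y.val j) ⊓ beq (z.func k) (y.func j) := by
                  rw [inf_assoc]
              _ ≤ bmem (y.func j) (mk α A b) ⊓ beq (z.func k) (y.func j) :=
                  inf_le_inf_right _ h2
              _ ≤ bmem (z.func k) (mk α A b) := by
                  rw [bmem_def, bmem_def, iSup_inf_eq]
                  refine iSup_le fun i => le_iSup_of_le i ?_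
                  refine le_inf (inf_le_left.trans inf_le_left) ?_
                  rw [beq_symm (z.func k) ((mk α A b).func i)]
                  refine le_trans ?_ (ih i (y.func j) (z.func k))
                  refine le_inf ?_ ?_
                  · rw [beq_symm (y.func j)]
                    exact inf_le_left.trans inf_le_right
                  · rw [beq_symm (z.func k)]
                    exact inf_le_right

theorem val_le_bmem (y : BSet B) (i : y.type) : y.val i ≤ bmem (y.func i) y := by
  rw [bmem_def]
  exact le_iSup_of_le i (by rw [beq_refl, inf_top_eq])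

theorem bmem_congr_left (x x' y : BSet B) : beq x x' ⊓ bmem x y ≤ bmem x' y := by
  rw [bmem_def, bmem_def, inf_iSup_eq]
  refine iSup_le fun i => le_iSup_of_le i ?_
  refine le_inf (inf_le_right.trans inf_le_left) ?_
  rw [beq_symm x x']
  exact le_trans (le_inf inf_le_left (inf_le_right.trans inf_le_right)) (beq_trans x' x _)

theorem bmem_congr_right (x y y' : BSet B) : beq y y' ⊓ bmem x y ≤ bmem x y' := by
  rw [bmem_def x y, inf_iSup_eq]
  refine iSup_le fun i => ?_
  have h1 := basic_beq_le y y' i
  refine le_trans ?_ (bmem_congr_left (y.func i) x y')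
  rw [beq_symm (y.func i) x]
  refine le_inf (inf_le_right.trans inf_le_right) ?_
  exact le_trans (le_inf inf_le_left (inf_le_right.trans inf_le_left)) h1

end BSet

end Pool.Agent.Lib.MP_4d8715_gt.KR
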