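import Mathlib

/-!
# Formulas of the language of set theory and the axioms of ZFC

`Fml n` is the type of formulas whose free variables are indexed by `Fin n`. In `all φ` and `ex φ` the
bound variable is the variable `0` of `φ` and the variable `i` outside becomes `i.succ` in `φ`.
-/

namespace Pool.Agent.Lib.MP_4d8715_gt.KR

/-- formulas of the language of set theory with free variables indexed by `Fin n` -/
inductive Fml : ℕ → Type
  | mem {n : ℕ} (i j : Fin n) : Fml n
  | eq {n : ℕ} (i j : Fin n) : Fml n
  | bot {n : ℕ} : Fml n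
  | imp {n : ℕ} (φ ψ : Fml n) : Fml n
  | all {n : ℕ} (φ : Fml (n + 1)) : Fml n

namespace Fml

/-- truth of a formula in the structure `(M, E)` -/
def Sat {M : Type*} (E : M → M → Prop) : {n : ℕ} → Fml n → (Fin n → M) → Prop
  | _, mem i j, v => E (v i) (v j)
  | _, eq i j, v => v i = v j
  | _, bot, _ => False
  | _, imp φ ψ, v => Sat E φ v → Sat E ψ v
  | _, all φ, v => ∀ x, Sat E φ (Fin.cons x v)

/-- negation -/
def neg {n : ℕ} (φ : Fml n) : Fml n := imp φ bot
/-- conjunction -/
def and {n : ℕ} (φ ψ : Fml n) : Fml n := neg (imp φ (neg ψ))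
/-- disjunction -/
def or {n : ℕ} (φ ψ : Fml n) : Fml n := imp (neg φ) ψ
/-- equivalence -/
def iff {n : ℕ} (φ ψ : Fml n) : Fml n := and (imp φ ψ) (imp ψ φ)
/-- existence -/
def ex {n : ℕ} (φ : Fml (n + 1)) : Fml n := neg (all (neg φ))

/-- renaming of the free variables -/
def rename : {n m : ℕ} → (Fin n → Fin m) → Fml n → Fml m
  | _, _, f, mem i j => mem (f i) (f j)
  | _, _, f, eq i j => eq (f i) (f j)
  | _, _, _, bot => bot
  | _, _, f, imp φ ψ => imp (rename f φ) (rename f ψ)
  | _, _, f, all φ => all (rename (Fin.cases 0 (fun i => (f i).succ)) φ)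

/-- universal closure -/
def closure : {n : ℕ} → Fml n → Fml 0
  | 0, φ => φ
  | _ + 1, φ => closure (all φ)

/-! ### The axioms of ZFC -/

/-- sets with the same elements are equal -/
def axExt : Fml 0 := all (all (imp (all (iff (mem 0 1) (mem 0 2))) (eq 0 1)))

/-- every nonempty set has a member disjoint from it -/
def axFound : Fml 0 :=
  all (imp (ex (mem 0 1)) (ex (and (mem 0 1) (all (imp (mem 0 1) (neg (mem 0 2)))))))

/-- unordered pairs -/
def axPair : Fml 0 := all (all (ex (all (iff (mem 0 1) (or (eq 0 2) (eq 0 3))))))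

/-- unions -/
def axUnion : Fml 0 := all (ex (all (iff (mem 0 1) (ex (and (mem 0 3) (mem 1 0))))))

/-- power sets -/
def axPower : Fml 0 := all (ex (all (iff (mem 0 1) (all (imp (mem 0 1) (mem 0 3))))))

/-- there is a set which contains the empty set and with every `x` the set `x ∪ {x}` -/
def axInf : Fml 0 :=
  ex (and (ex (and (mem 0 1) (all (neg (mem 0 1)))))
    (all (imp (mem 0 1) (ex (and (mem 0 2) (all (iff (mem 0 1) (or (mem 0 2) (eq 0 2)))))))))

/-- separation for `φ`, whose variable `0` is the element and whose other variables are parameters: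
for every `a` there is the set of all `x ∈ a` with `φ x` -/
def axSep {n : ℕ} (φ : Fml (n + 1)) : Fml 0 :=
  closure (n := n) (all (ex (all
    (iff (mem 0 1) (and (mem 0 2) (rename (Fin.cases 0 (fun i => i.succ.succ.succ)) φ))))))

/-- replacement for `φ x y` (variable `0` is `x`, variable `1` is `y`): if for every `x ∈ a` there is
exactly one `y` with `φ x y`, then there is a set `b` whose elements are the `y` with `φ x y` for
some `x ∈ a` -/
def axRep {n : ℕ} (φ : Fml (n + 2)) : Fml 0 :=
  closure (n := n) (all -- `a` is the variable `0`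
    (imp (all (imp (mem 0 1) (ex (all -- variables: `z, y, x, a`; `∀ z, φ x z ↔ z = y`
        (iff (rename (Fin.cases 2 (Fin.cases 0 (fun i => i.succ.succ.succ.succ))) φ) (eq 0 1))))))
      (ex (all -- variables: `y, b, a`
        (iff (mem 0 1) (ex (and (mem 0 3) -- variables: `x, y, b, a`
          (rename (Fin.cases 0 (Fin.cases 1 (fun i => i.succ.succ.succ.succ))) φ))))))))

/-- every set of nonempty pairwise disjoint sets has a transversal -/
def axChoice : Fml 0 :=
  all (imp
    (and (all (imp (mem 0 1) (ex (mem 0 1))))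
      (all (all (imp (and (mem 0 2) (and (mem 1 2) (ex (and (mem 0 1) (mem 0 2))))) (eq 0 1)))))
    (ex (all (imp (mem 0 2) (ex (all (iff (and (mem 0 2) (mem 0 3)) (eq 0 1))))))))

/-- the axioms of ZFC -/
def ZFC : Set (Fml 0) :=
  {axExt, axFound, axPair, axUnion, axPower, axInf, axChoice} ∪
    {φ | ∃ (n : ℕ) (ψ : Fml (n + 1)), φ = axSep ψ} ∪
    {φ | ∃ (n : ℕ) (ψ : Fml (n + 2)), φ = axRep ψ}

end Fml

end Pool.Agent.Lib.MP_4d8715_gt.KR
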