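import Pool.Agent.Lib.MP_4d8715_gt.KR.Z.Model
import Pool.Agent.Lib.MP_4d8715_gt.KR.Z.Ax1
import Pool.Agent.Lib.MP_4d8715_gt.KR.Z.Ax2
import Pool.Agent.Lib.MP_4d8715_gt.KR.Z.Ax3

/-! # The Boolean-valued model satisfies ZFC -/

universe u

namespace Pool.Agent.Lib.MP_4d8715_gt.KR

theorem bv_ZFC {B : Type u} [CompleteBooleanAlgebra B] (φ : Fml 0) (h : φ ∈ Fml.ZFC) :
    Fml.bv φ (![] : Fin 0 → BSet B) = ⊤ := by
  rcases h with (h | ⟨n, ψ, rfl⟩) | ⟨n, ψ, rfl⟩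
  · simp only [Set.mem_insert_iff, Set.mem_singleton_iff] at h
    rcases h with rfl | rfl | rfl | rfl | rfl | rfl | rfl
    · exact Fml.bv_axExt
    · exact Fml.bv_axFound
    · exact Fml.bv_axPair
    · exact Fml.bv_axUnion
    · exact Fml.bv_axPower
    · exact Fml.bv_axInf
    · exact Fml.bv_axChoice
  · exact Fml.bv_axSep ψ
  · exact Fml.bv_axRep ψ

/-- a sentence with Boolean value `⊤` is consistent with ZFC -/
theorem exists_model_ZFC (B : Type u) [CompleteBooleanAlgebra B] [Nontrivial B] :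
    ∃ (M : Type (u + 1)) (E : M → M → Prop), (∀ φ ∈ Fml.ZFC, Fml.Sat E φ ![]) ∧
      ∀ φ : Fml 0, Fml.bv φ (![] : Fin 0 → BSet B) = ⊤ → Fml.Sat E φ ![] := by
  obtain ⟨M, E, h⟩ := exists_model B
  exact ⟨M, E, fun φ hφ => h φ (bv_ZFC φ hφ), h⟩

end Pool.Agent.Lib.MP_4d8715_gt.KR
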