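import Pool.Agent.Lib.MP_4d8715_gt.KR.Z.Form
import Pool.Agent.Lib.MP_4d8715_gt.KR.Z.Full

/-! # The two-valued model (module Z-MODEL) -/

universe u

namespace Pool.Agent.Lib.MP_4d8715_gt.KR

theorem exists_ultra (B : Type u) [BooleanAlgebra B] [Nontrivial B] :
    ∃ U : B → Prop, U ⊤ ∧ ¬ U ⊥ ∧ (∀ a b, U (a ⊓ b) ↔ (U a ∧ U b)) ∧ ∀ a, U aᶜ ↔ ¬ U a := by
  have hdis : Disjoint ((Order.PFilter.principal (⊤ : B) : Order.PFilter B) : Set B)
      ((Order.Ideal.principal (⊥ : B) : Order.Ideal B) : Set B) := by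
    rw [Set.disjoint_left]
    intro a h1 h2
    have h3 : (⊤ : B) ≤ a := h1
    have h4 : a ≤ (⊥ : B) := h2
    exact bot_ne_top (le_bot_iff.mp (h3.trans h4)).symm
  obtain ⟨J, hJ, -, hFJ⟩ := DistribLattice.prime_ideal_of_disjoint_filter_ideal hdis
  have htop : (⊤ : B) ∉ J := fun h => Set.disjoint_left.mp hFJ (show (⊤ : B) ≤ ⊤ from le_rfl) h
  refine ⟨fun a => a ∉ J, htop, fun h => h J.bot_mem, fun a b => ?_, fun a => ?_⟩
  · constructor
    · exact fun h => ⟨fun ha => h (J.lower inf_le_left ha), fun hb => h (J.lower inf_le_right hb)⟩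
    · rintro ⟨h1, h2⟩ h
      exact (hJ.mem_or_mem h).elim h1 h2
  · constructor
    · intro h1 h2
      exact (hJ.mem_or_mem (show a ⊓ aᶜ ∈ J by rw [inf_compl_eq_bot]; exact J.bot_mem)).elim h2 h1
    · intro h1 h2
      have h3 : a ∈ J := not_not.mp h1
      have := Order.Ideal.sup_mem h3 h2
      rw [sup_compl_eq_top] at this
      exact htop this

theorem exists_model (B : Type u) [CompleteBooleanAlgebra B] [Nontrivial B] :
    ∃ (M : Type (u + 1)) (E : M → M → Prop),
      ∀ φ : Fml 0, Fml.bv φ (![] : Fin 0 → BSet B) = ⊤ → Fml.Sat E φ ![] := by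
  obtain ⟨U, htop, hbot, hinf, hcompl⟩ := exists_ultra B
  have hmono : ∀ a b, a ≤ b → U a → U b := by
    intro a b hab ha
    have : U (a ⊓ b) := by rwa [inf_eq_left.mpr hab]
    exact ((hinf a b).mp this).2
  have himp : ∀ a b, U (a ⇨ b) ↔ (U a → U b) := by
    intro a b
    have : a ⇨ b = (a ⊓ bᶜ)ᶜ := by rw [himp_eq, compl_inf, compl_compl, sup_comm]
    rw [this, hcompl, hinf, hcompl]
    tauto
  let S : Setoid (BSet B) :=
    { r := fun x y => U (BSet.beq x y)
      iseqv :=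
        { refl := fun x => by rw [BSet.beq_refl]; exact htop
          symm := fun {x y} h => by rw [BSet.beq_symm]; exact h
          trans := fun {x y z} h1 h2 =>
            hmono _ _ (BSet.beq_trans x y z) ((hinf _ _).mpr ⟨h1, h2⟩) } }
  have hE : ∀ a₁ b₁ a₂ b₂ : BSet B, U (BSet.beq a₁ a₂) → U (BSet.beq b₁ b₂) →
      U (BSet.bmem a₁ b₁) → U (BSet.bmem a₂ b₂) := by
    intro a₁ b₁ a₂ b₂ h1 h2 h3
    have h4 := hmono _ _ (BSet.bmem_congr_left a₁ a₂ b₁) ((hinf _ _).mpr ⟨h1, h3⟩)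
    exact hmono _ _ (BSet.bmem_congr_right a₂ b₁ b₂) ((hinf _ _).mpr ⟨h2, h4⟩)
  let E : Quotient S → Quotient S → Prop := fun p q =>
    Quotient.liftOn₂ p q (fun x y => U (BSet.bmem x y)) (fun a₁ b₁ a₂ b₂ h1 h2 =>
      propext ⟨hE a₁ b₁ a₂ b₂ h1 h2, hE a₂ b₂ a₁ b₁ (S.symm h1) (S.symm h2)⟩)
  refine ⟨Quotient S, E, ?_⟩
  have hlos : ∀ {n : ℕ} (φ : Fml n) (v : Fin n → BSet B),
      Fml.Sat E φ (fun i => (Quotient.mk S (v i))) ↔ U (Fml.bv φ v) := by
    intro n φ
    induction φ with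
    | mem i j => intro v; exact Iff.rfl
    | eq i j =>
      intro v
      rw [Fml.sat_eq, Fml.bv_eq]
      exact ⟨fun h => Quotient.exact h, fun h => Quotient.sound h⟩
    | bot =>
      intro v
      rw [Fml.sat_bot, Fml.bv_bot]
      exact ⟨fun h => h.elim, fun h => hbot h⟩
    | imp φ ψ h1 h2 =>
      intro v
      rw [Fml.sat_imp, Fml.bv_imp, himp, h1, h2]
    | all φ h =>
      intro v
      have hcons : ∀ x : BSet B, (Fin.cons (Quotient.mk S x) (fun i => Quotient.mk S (v i)) :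
          Fin _ → Quotient S) = fun i => Quotient.mk S ((Fin.cons x v : Fin _ → BSet B) i) := by
        intro x
        funext i
        refine Fin.cases ?_ (fun i => ?_) i
        · rfl
        · rfl
      rw [Fml.sat_all, Fml.bv_all]
      constructor
      · intro hall
        obtain ⟨x, hx⟩ := BSet.exists_max (fun x => Fml.bv (Fml.neg φ) (Fin.cons x v))
          (Fml.ext_bv (Fml.neg φ) v)
        simp only [Fml.bv_neg] at hx
        rw [← compl_iInf, compl_inj_iff] at hx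
        rw [← hx, ← h, ← hcons]
        exact hall _
      · intro hU q
        induction q using Quotient.inductionOn with
        | _ x =>
          rw [hcons x, h]
          exact hmono _ _ (iInf_le _ x) hU
  intro φ hφ
  have h1 := hlos φ (![] : Fin 0 → BSet B)
  rw [hφ] at h1
  have h2 : (fun i => Quotient.mk S ((![] : Fin 0 → BSet B) i)) = (![] : Fin 0 → Quotient S) :=
    Subsingleton.elim _ _
  rw [h2] at h1
  exact h1.mpr htop

end Pool.Agent.Lib.MP_4d8715_gt.KR
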